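import Pool.Agent.Helper30.UP.St

set_option autoImplicit false

noncomputable section

namespace Pool.Agent.Helper58.UP

open Finset Pool.Agent.Helper30.UP
open scoped Classical

/-- the bad pairs of `x` -/
private def bp {c n : ℕ} (s : Fin n → E c) (x : E c) : Finset (E c × E c) :=
  (Ds s ×ˢ Ds s).filter (fun p => x + p.1 ∈ Ds s ∧ x + p.2 ∈ Ds s ∧ p.1 + p.2 ∉ Ds s)

private theorem one_pair {c n : ℕ} (s : Fin n → E c) (y z : E c) :
    ((Ds s).filter (fun x => x + y ∈ Ds s ∧ x + z ∈ Ds s)).card ≤ rr s (y + z) := by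
  unfold rr
  apply card_le_card_of_injOn (fun x => x + y)
  · intro x hx
    simp only [coe_filter, mem_filter, Set.mem_ofPred_eq] at hx ⊢
    refine ⟨hx.2.1, ?_⟩
    have e : y + z + (x + y) = x + z := by
      have : y + z + (x + y) = (y + y) + (x + z) := by abel
      rw [this, E_add_self, zero_add]
    rw [e]
    exact hx.2.2
  · intro x _ x' _ h
    exact add_right_cancel h

theorem hC2 (h : StC1) : StC2 := by
  intro K T ε c n D s hK hT hε hH
  obtain ⟨h0, _, _, h4, _⟩ := h K T c n D s hK hT hH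
  have hDpos : (0 : ℝ) < (Ds s).card := by
    have : 0 < (Ds s).card := card_pos.2 ⟨0, h0⟩
    exact_mod_cast this
  refine ⟨(Ds s).filter (fun x => ((bp s x).card : ℝ) ≤ ε * ((Ds s).card : ℝ) ^ 2),
    filter_subset _ _, ?_, ?_⟩
  · -- the sum of the numbers of bad pairs
    have hsum : ∑ x ∈ Ds s, (bp s x).card =
        ∑ p ∈ (Ds s ×ˢ Ds s).filter (fun p => p.1 + p.2 ∉ Ds s),
          ((Ds s).filter (fun x => x + p.1 ∈ Ds s ∧ x + p.2 ∈ Ds s)).card := by
      have e1 : ∀ x, (bp s x).card = ∑ p ∈ (Ds s ×ˢ Ds s).filter (fun p => p.1 + p.2 ∉ Ds s),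
          (if x + p.1 ∈ Ds s ∧ x + p.2 ∈ Ds s then 1 else 0) := by
        intro x
        rw [← card_filter, filter_filter]
        unfold bp
        congr 1
        apply filter_congr
        intro p _
        tauto
      rw [sum_congr rfl (fun x _ => e1 x), sum_comm]
      apply sum_congr rfl
      intro p _
      rw [card_filter]
    have hup : (n : ℝ) * ∑ x ∈ Ds s, ((bp s x).card : ℝ) ≤
        ((Ds s).card : ℝ) ^ 2 * (T ^ 2 * (K : ℝ) ^ 2 * (Ds s).card) := by
      have e2 : ∑ x ∈ Ds s, ((bp s x).card : ℝ) = ((∑ x ∈ Ds s, (bp s x).card : ℕ) : ℝ) := by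
        push_cast
        rfl
      rw [e2, hsum]
      push_cast
      rw [mul_sum]
      calc ∑ p ∈ (Ds s ×ˢ Ds s).filter (fun p => p.1 + p.2 ∉ Ds s),
            (n : ℝ) * (((Ds s).filter (fun x => x + p.1 ∈ Ds s ∧ x + p.2 ∈ Ds s)).card : ℝ)
          ≤ ∑ p ∈ (Ds s ×ˢ Ds s).filter (fun p => p.1 + p.2 ∉ Ds s),
            (T ^ 2 * (K : ℝ) ^ 2 * (Ds s).card) := by
            apply sum_le_sum
            intro p hp
            rw [mem_filter] at hp
            refine le_trans ?_ (h4 (p.1 + p.2) hp.2)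
            apply mul_le_mul_of_nonneg_left _ (Nat.cast_nonneg n)
            exact_mod_cast one_pair s p.1 p.2
        _ = (((Ds s ×ˢ Ds s).filter (fun p => p.1 + p.2 ∉ Ds s)).card : ℝ) *
            (T ^ 2 * (K : ℝ) ^ 2 * (Ds s).card) := by
            rw [sum_const, nsmul_eq_mul]
        _ ≤ ((Ds s).card : ℝ) ^ 2 * (T ^ 2 * (K : ℝ) ^ 2 * (Ds s).card) := by
            apply mul_le_mul_of_nonneg_right _ (by positivity)
            have : ((Ds s ×ˢ Ds s).filter (fun p => p.1 + p.2 ∉ Ds s)).card ≤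
                (Ds s).card * (Ds s).card := by
              rw [← card_product]
              exact card_le_card (filter_subset _ _)
            rw [sq]
            exact_mod_cast this
    have hlow : (n : ℝ) * (((Ds s \ (Ds s).filter
        (fun x => ((bp s x).card : ℝ) ≤ ε * ((Ds s).card : ℝ) ^ 2)).card : ℝ) *
          (ε * ((Ds s).card : ℝ) ^ 2)) ≤ (n : ℝ) * ∑ x ∈ Ds s, ((bp s x).card : ℝ) := by
      apply mul_le_mul_of_nonneg_left _ (Nat.cast_nonneg n)
      rw [← nsmul_eq_mul, ← sum_const]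
      calc ∑ _x ∈ Ds s \ (Ds s).filter
            (fun x => ((bp s x).card : ℝ) ≤ ε * ((Ds s).card : ℝ) ^ 2),
            (ε * ((Ds s).card : ℝ) ^ 2)
          ≤ ∑ x ∈ Ds s \ (Ds s).filter
            (fun x => ((bp s x).card : ℝ) ≤ ε * ((Ds s).card : ℝ) ^ 2),
            ((bp s x).card : ℝ) := by
            apply sum_le_sum
            intro x hx
            rw [mem_sdiff, mem_filter] at hx
            by_contra hcon
            exact hx.2 ⟨hx.1, le_of_lt (not_le.1 hcon)⟩
        _ ≤ ∑ x ∈ Ds s, ((bp s x).card : ℝ) :=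
            sum_le_sum_of_subset_of_nonneg sdiff_subset (fun _ _ _ => Nat.cast_nonneg _)
    have hfin := hlow.trans hup
    have hD2 : (0 : ℝ) < ((Ds s).card : ℝ) ^ 2 := by positivity
    refine le_of_mul_le_mul_right ?_ hD2
    nlinarith [hfin]
  · intro x hx
    exact (mem_filter.1 hx).2

end Pool.Agent.Helper58.UP
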