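import Pool.Agent.Helper30.UP.St

set_option autoImplicit false

noncomputable section

namespace Pool.Agent.Helper58.UP

open Finset Pool.Agent.Helper30.UP
open scoped Classical

/-- number of `y` in `A` with `d + y` in `A` -/
private def rho {c : ℕ} (A : Finset (E c)) (d : E c) : ℕ := (A.filter (fun y => d + y ∈ A)).card

private theorem rho_le {c : ℕ} (A : Finset (E c)) (d : E c) : rho A d ≤ A.card :=
  card_le_card (filter_subset _ _)

private theorem rho_add {c : ℕ} (A : Finset (E c)) (a b : E c) :
    rho A a + rho A b ≤ rho A (a + b) + A.card := by
  have h1 : (A.filter (fun y => b + y ∈ A)).card =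
      ((A.filter (fun y => b + y ∈ A)).filter (fun y => a + (b + y) ∈ A)).card +
      ((A.filter (fun y => b + y ∈ A)).filter (fun y => ¬ a + (b + y) ∈ A)).card :=
    (card_filter_add_card_filter_not _).symm
  have h2 : ((A.filter (fun y => b + y ∈ A)).filter (fun y => a + (b + y) ∈ A)).card ≤
      rho A (a + b) := by
    apply card_le_card
    intro y hy
    simp only [mem_filter] at hy ⊢
    exact ⟨hy.1.1, by rw [add_assoc]; exact hy.2⟩
  have h3 : ((A.filter (fun y => b + y ∈ A)).filter (fun y => ¬ a + (b + y) ∈ A)).card ≤
      (A.filter (fun z => ¬ a + z ∈ A)).card := by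
    apply card_le_card_of_injOn (fun y => b + y)
    · intro y hy
      simp only [coe_filter, mem_filter, Set.mem_ofPred_eq] at hy ⊢
      exact ⟨hy.1.2, hy.2⟩
    · intro y _ z _ h
      exact add_left_cancel h
  have h4 : (A.filter (fun z => a + z ∈ A)).card + (A.filter (fun z => ¬ a + z ∈ A)).card =
      A.card := card_filter_add_card_filter_not _
  unfold rho at *
  omega

theorem hC3 : StC3 := by
  intro c A hA hbad
  have hA0 : 0 < A.card := hA.card_pos
  -- the good elements
  set A1 : Finset (E c) := A.filter (fun d => 15 * A.card ≤ 16 * rho A d) with hA1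
  have hB : ((A ×ˢ A).filter (fun p => p.1 + p.2 ∉ A)).card = ∑ d ∈ A, (A.card - rho A d) := by
    rw [card_filter, sum_product]
    apply sum_congr rfl
    intro d _
    rw [← card_filter]
    have h4 : (A.filter (fun z => d + z ∈ A)).card + (A.filter (fun z => ¬ d + z ∈ A)).card =
      A.card := card_filter_add_card_filter_not _
    change (A.filter (fun z => ¬ d + z ∈ A)).card = A.card - (A.filter (fun z => d + z ∈ A)).card
    omega
  have hcount : 16 * (A.filter (fun d => ¬ 15 * A.card ≤ 16 * rho A d)).card ≤ A.card := by
    have h1 : ∑ d ∈ A.filter (fun d => ¬ 15 * A.card ≤ 16 * rho A d), A.card ≤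
        16 * ∑ d ∈ A, (A.card - rho A d) := by
      rw [mul_sum]
      calc ∑ d ∈ A.filter (fun d => ¬ 15 * A.card ≤ 16 * rho A d), A.card
          ≤ ∑ d ∈ A.filter (fun d => ¬ 15 * A.card ≤ 16 * rho A d), 16 * (A.card - rho A d) := by
            apply sum_le_sum
            intro d hd
            rw [mem_filter] at hd
            have := hd.2
            omega
        _ ≤ ∑ d ∈ A, 16 * (A.card - rho A d) :=
            sum_le_sum_of_subset (filter_subset _ _)
    rw [sum_const, smul_eq_mul, ← hB] at h1
    have h2 : (16 * (A.filter (fun d => ¬ 15 * A.card ≤ 16 * rho A d)).card) * A.card ≤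
        A.card * A.card := by
      have h3 : A.card ^ 2 = A.card * A.card := sq _
      nlinarith
    exact Nat.le_of_mul_le_mul_right h2 hA0
  have hA1c : 15 * A.card ≤ 16 * A1.card := by
    have h4 : A1.card + (A.filter (fun d => ¬ 15 * A.card ≤ 16 * rho A d)).card = A.card :=
      card_filter_add_card_filter_not _
    omega
  have hA1c' : 16 * (A \ A1).card ≤ A.card := by
    have h4 : (A \ A1).card = A.card - A1.card := card_sdiff_of_subset (filter_subset _ _)
    omega
  -- elements with large rho
  have hbig : ∀ d : E c, A.card < 2 * rho A d → 14 * A.card ≤ 16 * rho A d := by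
    intro d hd
    obtain ⟨y, hy1, hy2⟩ : ∃ y, y ∈ A1 ∧ d + y ∈ A1 := by
      by_contra hcon
      push Not at hcon
      have h1 : A.filter (fun y => d + y ∈ A) ⊆ (A \ A1) ∪ (A \ A1).image (fun z => d + z) := by
        intro y hy
        rw [mem_filter] at hy
        rw [mem_union]
        by_cases h : y ∈ A1
        · right
          rw [mem_image]
          refine ⟨d + y, mem_sdiff.2 ⟨hy.2, hcon y h⟩, ?_⟩
          exact E_add_add d y
        · left
          exact mem_sdiff.2 ⟨hy.1, h⟩
      have h2 : rho A d ≤ (A \ A1).card + (A \ A1).card :=
        (card_le_card h1).trans ((card_union_le _ _).trans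
          (Nat.add_le_add_left card_image_le _))
      omega
    have e : (d + y) + y = d := by rw [add_assoc, E_add_self, add_zero]
    have h3 := rho_add A (d + y) y
    rw [e] at h3
    have h4 := (mem_filter.1 hy1).2
    have h5 := (mem_filter.1 hy2).2
    omega
  let W : Submodule (ZMod 2) (E c) :=
    { carrier := {d | A.card < 2 * rho A d}
      add_mem' := by
        intro d d' hd hd'
        have h1 := hbig d hd
        have h2 := hbig d' hd'
        have h3 := rho_add A d d'
        show A.card < 2 * rho A (d + d')
        omega
      zero_mem' := by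
        show A.card < 2 * rho A 0
        have : rho A 0 = A.card := by
          unfold rho
          rw [filter_true_of_mem]
          intro y hy
          rw [zero_add]
          exact hy
        omega
      smul_mem' := by
        intro a x hx
        rcases z2 a with h | h
        · rw [h, zero_smul]
          show A.card < 2 * rho A 0
          have : rho A 0 = A.card := by
            unfold rho
            rw [filter_true_of_mem]
            intro y hy
            rw [zero_add]
            exact hy
          omega
        · rw [h, one_smul]
          exact hx }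
  have hW : ∀ d, d ∈ W ↔ A.card < 2 * rho A d := fun d => Iff.rfl
  refine ⟨W, ?_, ?_, ?_⟩
  · have h1 : A1 ⊆ A.filter (fun y => y ∈ W) := by
      intro y hy
      have h2 := mem_filter.1 hy
      rw [mem_filter]
      refine ⟨h2.1, ?_⟩
      rw [hW]
      have := h2.2
      omega
    have h3 := card_le_card h1
    omega
  · have h1 : ∑ d : E c, rho A d = A.card * A.card := by
      unfold rho
      simp_rw [card_filter]
      rw [sum_comm]
      rw [← smul_eq_mul, ← sum_const]
      apply sum_congr rfl
      intro y _
      rw [← card_filter]
      apply card_nbij' (fun d => d + y) (fun z => z + y)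
      · intro d hd
        simp only [coe_filter, mem_univ, true_and, Set.mem_ofPred_eq] at hd
        exact hd
      · intro z hz
        simp only [coe_filter, mem_univ, true_and, Set.mem_ofPred_eq]
        rw [add_assoc, E_add_self, add_zero]
        exact hz
      · intro d _
        show d + y + y = d
        rw [add_assoc, E_add_self, add_zero]
      · intro z _
        show z + y + y = z
        rw [add_assoc, E_add_self, add_zero]
    have h2 : ∑ d ∈ el W, 14 * A.card ≤ 16 * ∑ d : E c, rho A d := by
      rw [mul_sum]
      calc ∑ d ∈ el W, 14 * A.card ≤ ∑ d ∈ el W, 16 * rho A d := by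
            apply sum_le_sum
            intro d hd
            rw [mem_el, hW] at hd
            exact hbig d hd
        _ ≤ ∑ d : E c, 16 * rho A d := sum_le_sum_of_subset (subset_univ _)
    rw [sum_const, smul_eq_mul, h1, card_el] at h2
    have h3 : (7 * Nat.card W) * A.card ≤ (8 * A.card) * A.card := by nlinarith
    exact Nat.le_of_mul_le_mul_right h3 hA0
  · intro d hd
    rw [hW]
    have : rho A d = A.card := by
      unfold rho
      rw [filter_true_of_mem]
      exact hd
    omega

end Pool.Agent.Helper58.UP
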