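import Pool.Agent.Helper30.UP.St

set_option autoImplicit false

noncomputable section

namespace Pool.Agent.Helper58.UP

open Finset Pool.Agent.Helper30.UP
open scoped Classical

/-- bad pairs of the set `A` of the `y ∈ Ds` with `x + y ∈ Ds` -/
private theorem bad_le {c n : ℕ} (s : Fin n → E c) (x : E c) :
    ((((Ds s).filter (fun y => x + y ∈ Ds s)) ×ˢ ((Ds s).filter (fun y => x + y ∈ Ds s))).filter
      (fun p => p.1 + p.2 ∉ (Ds s).filter (fun y => x + y ∈ Ds s))).card ≤
    2 * ((Ds s ×ˢ Ds s).filter (fun p => x + p.1 ∈ Ds s ∧ x + p.2 ∈ Ds s ∧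
      p.1 + p.2 ∉ Ds s)).card := by
  set B := (Ds s ×ˢ Ds s).filter (fun p => x + p.1 ∈ Ds s ∧ x + p.2 ∈ Ds s ∧
      p.1 + p.2 ∉ Ds s) with hB
  have h1 : (((Ds s).filter (fun y => x + y ∈ Ds s)) ×ˢ
      ((Ds s).filter (fun y => x + y ∈ Ds s))).filter
      (fun p => p.1 + p.2 ∉ (Ds s).filter (fun y => x + y ∈ Ds s)) ⊆
      B ∪ B.image (fun p => (x + p.1, p.2)) := by
    rintro ⟨y, z⟩ hp
    rw [mem_filter, mem_product, mem_filter, mem_filter, mem_filter] at hp
    obtain ⟨⟨⟨hy, hxy⟩, hz, hxz⟩, hn⟩ := hp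
    simp only at hy hxy hz hxz hn
    rw [mem_union]
    by_cases h : y + z ∈ Ds s
    · right
      rw [mem_image]
      refine ⟨(x + y, z), ?_, ?_⟩
      · rw [hB, mem_filter, mem_product]
        refine ⟨⟨hxy, hz⟩, ?_, hxz, ?_⟩
        · show x + (x + y) ∈ Ds s
          rw [E_add_add]
          exact hy
        · show x + y + z ∉ Ds s
          rw [add_assoc]
          intro h'
          exact hn ⟨h, h'⟩
      · show (x + (x + y), z) = (y, z)
        rw [E_add_add]
    · left
      rw [hB, mem_filter, mem_product]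
      exact ⟨⟨hy, hz⟩, hxy, hxz, h⟩
  calc _ ≤ (B ∪ B.image (fun p => (x + p.1, p.2))).card := card_le_card h1
    _ ≤ B.card + (B.image (fun p => (x + p.1, p.2))).card := card_union_le _ _
    _ ≤ B.card + B.card := Nat.add_le_add_left card_image_le _
    _ = 2 * B.card := by ring

theorem hC4 (h1 : StC1) (h2 : StC2) (h3 : StC3) : StC4 := by
  intro K T hK hT
  have hK' : (1 : ℝ) ≤ K := by exact_mod_cast hK
  have hTK : (0 : ℝ) < T * (K : ℝ) ^ 2 := by positivity
  set δ₁ : ℝ := 1 / (T * (K : ℝ) ^ 2) with hδ₁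
  have hδ₁pos : 0 < δ₁ := by rw [hδ₁]; positivity
  set ε : ℝ := δ₁ ^ 2 / 512 with hε
  have hεpos : 0 < ε := by rw [hε]; positivity
  have hM : (0 : ℝ) < T ^ 2 * (K : ℝ) ^ 2 := by positivity
  refine ⟨δ₁ / 2, T ^ 2 * (K : ℝ) ^ 2 / ε, ⌈3 * (T ^ 2 * (K : ℝ) ^ 2) / δ₁⌉₊, by positivity,
    by positivity, ?_⟩
  intro n hn c D s hH
  have hn' : 3 * (T ^ 2 * (K : ℝ) ^ 2) ≤ n * δ₁ := by
    have : 3 * (T ^ 2 * (K : ℝ) ^ 2) / δ₁ ≤ n := (Nat.le_ceil _).trans (by exact_mod_cast hn)
    rwa [div_le_iff₀ hδ₁pos] at this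
  obtain ⟨h0, _, _, hout, hin, _⟩ := h1 K T c n D s hK hT hH
  have hDpos : (0 : ℝ) < (Ds s).card := by
    have : 0 < (Ds s).card := card_pos.2 ⟨0, h0⟩
    exact_mod_cast this
  obtain ⟨G, hGsub, hGc, hGb⟩ := h2 K T ε c n D s hK hT hεpos hH
  refine ⟨G, hGsub, ?_, ?_⟩
  · rw [div_mul_eq_mul_div, le_div_iff₀ hεpos]
    calc (n : ℝ) * ((Ds s \ G).card : ℝ) * ε = n * ε * ((Ds s \ G).card : ℝ) := by ring
      _ ≤ _ := hGc
  · intro x hx
    have hxD := hGsub hx
    have hxr := hin x hxD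
    set A := (Ds s).filter (fun y => x + y ∈ Ds s) with hA
    have hAr : (A.card : ℝ) = rr s x := rfl
    have hAlow : δ₁ * (Ds s).card ≤ A.card := by
      rw [hδ₁, div_mul_eq_mul_div, one_mul, div_le_iff₀ hTK, hAr]
      linarith
    have hApos : 0 < A.card := by
      have : (0 : ℝ) < A.card := lt_of_lt_of_le (by positivity) hAlow
      exact_mod_cast this
    have hbad : 256 * ((A ×ˢ A).filter (fun p => p.1 + p.2 ∉ A)).card ≤ A.card ^ 2 := by
      have hb1 := bad_le s x
      rw [← hA] at hb1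
      have hb2 := hGb x hx
      have hb3 : (((A ×ˢ A).filter (fun p => p.1 + p.2 ∉ A)).card : ℝ) ≤
          2 * (ε * ((Ds s).card : ℝ) ^ 2) := by
        have : (((A ×ˢ A).filter (fun p => p.1 + p.2 ∉ A)).card : ℝ) ≤
          2 * (((Ds s ×ˢ Ds s).filter (fun p => x + p.1 ∈ Ds s ∧ x + p.2 ∈ Ds s ∧
            p.1 + p.2 ∉ Ds s)).card : ℝ) := by exact_mod_cast hb1
        linarith
      have hb4 : (δ₁ * (Ds s).card) ^ 2 ≤ (A.card : ℝ) ^ 2 :=
        pow_le_pow_left₀ (by positivity) hAlow 2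
      have hb5 : (256 : ℝ) * (((A ×ˢ A).filter (fun p => p.1 + p.2 ∉ A)).card : ℝ) ≤
          (A.card : ℝ) ^ 2 := by
        calc (256 : ℝ) * (((A ×ˢ A).filter (fun p => p.1 + p.2 ∉ A)).card : ℝ)
            ≤ 256 * (2 * (ε * ((Ds s).card : ℝ) ^ 2)) := by linarith
          _ = (δ₁ * (Ds s).card) ^ 2 := by rw [hε]; ring
          _ ≤ _ := hb4
      exact_mod_cast hb5
    obtain ⟨W, hW1, hW2, hW3⟩ := h3 c A (card_pos.1 hApos) hbad
    have hW1' : (15 : ℝ) * A.card ≤ 16 * ((A.filter (fun y => y ∈ W)).card : ℝ) := by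
      exact_mod_cast hW1
    have hsub : A.filter (fun y => y ∈ W) ⊆ el W := by
      intro y hy
      rw [mem_el]
      exact (mem_filter.1 hy).2
    have hSW : (A.filter (fun y => y ∈ W)).card ≤ Nat.card W := by
      rw [← card_el]
      exact card_le_card hsub
    have hSW' : ((A.filter (fun y => y ∈ W)).card : ℝ) ≤ Nat.card W := by exact_mod_cast hSW
    refine ⟨W, ?_, ?_, ?_⟩
    · apply hW3
      intro y hy
      rw [hA, mem_filter] at hy ⊢
      refine ⟨hy.2, ?_⟩
      rw [E_add_add]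
      exact hy.1
    · intro x' hx'
      by_contra hx'D
      have hr := hout x' hx'D
      -- many representations
      have hmany : Nat.card W ≤ 2 * rr s x' := by
        set S := A.filter (fun y => y ∈ W) with hS
        have hT1 : el W ⊆ (S.filter (fun y => x' + y ∈ S)) ∪ ((el W \ S) ∪
            (el W \ S).image (fun z => x' + z)) := by
          intro y hy
          have hyW := (mem_el W y).1 hy
          rw [mem_union, mem_union, mem_filter, mem_sdiff, mem_image]
          by_cases hy1 : y ∈ S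
          · by_cases hy2 : x' + y ∈ S
            · left
              exact ⟨hy1, hy2⟩
            · right; right
              refine ⟨x' + y, ?_, E_add_add x' y⟩
              rw [mem_sdiff, mem_el]
              exact ⟨W.add_mem hx' hyW, hy2⟩
          · right; left
            exact ⟨hy, hy1⟩
        have hT2 : (el W).card ≤ (S.filter (fun y => x' + y ∈ S)).card +
            ((el W \ S).card + (el W \ S).card) :=
          (card_le_card hT1).trans ((card_union_le _ _).trans (Nat.add_le_add_left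
            ((card_union_le _ _).trans (Nat.add_le_add_left card_image_le _)) _))
        have hT3 : (el W \ S).card = (el W).card - S.card := card_sdiff_of_subset hsub
        have hT4 : (S.filter (fun y => x' + y ∈ S)).card ≤ rr s x' := by
          unfold rr
          apply card_le_card
          intro y hy
          rw [mem_filter] at hy ⊢
          refine ⟨?_, ?_⟩
          · exact (mem_filter.1 (mem_filter.1 hy.1).1).1
          · exact (mem_filter.1 (mem_filter.1 hy.2).1).1
        rw [card_el] at hT2 hT3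
        omega
      have hmany' : (Nat.card W : ℝ) ≤ 2 * rr s x' := by exact_mod_cast hmany
      have e1 : (15 / 32 : ℝ) * (δ₁ * (Ds s).card) ≤ rr s x' := by
        have : (15 / 32 : ℝ) * A.card ≤ rr s x' := by linarith
        have h5 : (15 / 32 : ℝ) * (δ₁ * (Ds s).card) ≤ (15 / 32 : ℝ) * A.card := by
          apply mul_le_mul_of_nonneg_left hAlow (by norm_num)
        linarith
      have e2 : (n : ℝ) * ((15 / 32 : ℝ) * (δ₁ * (Ds s).card)) ≤
          T ^ 2 * (K : ℝ) ^ 2 * (Ds s).card :=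
        (mul_le_mul_of_nonneg_left e1 (Nat.cast_nonneg n)).trans hr
      have e3 : (15 / 32 : ℝ) * (n * δ₁) * (Ds s).card ≤
          T ^ 2 * (K : ℝ) ^ 2 * (Ds s).card := by
        calc (15 / 32 : ℝ) * (n * δ₁) * (Ds s).card =
            (n : ℝ) * ((15 / 32 : ℝ) * (δ₁ * (Ds s).card)) := by ring
          _ ≤ _ := e2
      have e4 : (15 / 32 : ℝ) * (n * δ₁) ≤ T ^ 2 * (K : ℝ) ^ 2 := le_of_mul_le_mul_right e3 hDpos
      nlinarith
    · have h5 : (15 / 16 : ℝ) * (δ₁ * (Ds s).card) ≤ (15 / 16 : ℝ) * A.card := by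
        apply mul_le_mul_of_nonneg_left hAlow (by norm_num)
      have h6 : (0 : ℝ) ≤ δ₁ * (Ds s).card := by positivity
      have h7 : δ₁ / 2 * (Ds s).card = (1 / 2 : ℝ) * (δ₁ * (Ds s).card) := by ring
      rw [h7]
      linarith

end Pool.Agent.Helper58.UP
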