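import Pool.Agent.Helper30.UP.St

set_option autoImplicit false

noncomputable section

namespace Pool.Agent.Helper58.UP

open Finset Pool.Agent.Helper30.UP
open scoped Classical

/-- large subspaces of non-typical words -/
private def Lg (δ : ℝ) {c n : ℕ} (s : Fin n → E c) : Set (Submodule (ZMod 2) (E c)) :=
  {W | (∀ y ∈ W, y ∈ Ds s) ∧ δ * (Ds s).card ≤ Nat.card W}

private theorem finSub (c : ℕ) : Finite (Submodule (ZMod 2) (E c)) :=
  Finite.of_injective (fun W : Submodule (ZMod 2) (E c) => el W) (by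
    intro W W' h
    ext x
    have h' : el W = el W' := h
    rw [← mem_el, h', mem_el])

/-- a maximal large subspace satisfies the third condition -/
private theorem third {c n : ℕ} (δ κ : ℝ) (s : Fin n → E c) (W : Submodule (ZMod 2) (E c))
    (hW : Maximal (fun W => W ∈ Lg δ s) W)
    (hout : ∀ z, z ∉ Ds s → (n : ℝ) * (rr s z : ℝ) ≤ κ * (Ds s).card) (x : E c) (hx : x ∉ W) :
    (n : ℝ) * ((el W).filter (fun y => x + y ∈ Ds s)).card ≤ κ * (Ds s).card := by
  have hWL : W ∈ Lg δ s := hW.prop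
  obtain ⟨y₀, hy₀, hz⟩ : ∃ y₀ ∈ W, x + y₀ ∉ Ds s := by
    by_contra hcon
    push Not at hcon
    have hmem : W ⊔ Submodule.span (ZMod 2) {x} ∈ Lg δ s := by
      constructor
      · intro y hy
        rw [Submodule.mem_sup] at hy
        obtain ⟨w, hw, u, hu, rfl⟩ := hy
        rw [Submodule.mem_span_singleton] at hu
        obtain ⟨a, rfl⟩ := hu
        rcases z2 a with ha | ha
        · rw [ha, zero_smul, add_zero]
          exact hWL.1 w hw
        · rw [ha, one_smul, add_comm]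
          exact hcon w hw
      · have h1 : Nat.card W ≤ Nat.card ↥(W ⊔ Submodule.span (ZMod 2) {x}) :=
          card_mono le_sup_left
        have h2 : (Nat.card W : ℝ) ≤ Nat.card ↥(W ⊔ Submodule.span (ZMod 2) {x}) := by
          exact_mod_cast h1
        exact hWL.2.trans h2
    have h3 : W ⊔ Submodule.span (ZMod 2) {x} ≤ W := hW.le_of_ge hmem le_sup_left
    apply hx
    apply h3
    exact Submodule.mem_sup_right (Submodule.mem_span_singleton_self x)
  have hc : ((el W).filter (fun y => x + y ∈ Ds s)).card ≤ rr s (x + y₀) := by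
    unfold rr
    apply card_le_card_of_injOn (fun y => y₀ + y)
    · intro y hy
      simp only [coe_filter, Set.mem_ofPred_eq] at hy ⊢
      have hyW : y ∈ W := (mem_el W y).1 hy.1
      refine ⟨hWL.1 _ (W.add_mem hy₀ hyW), ?_⟩
      have e : x + y₀ + (y₀ + y) = x + y := by
        rw [add_assoc, E_add_add]
      rw [e]
      exact hy.2
    · intro y _ y' _ h
      exact add_left_cancel h
  calc (n : ℝ) * ((el W).filter (fun y => x + y ∈ Ds s)).card
      ≤ (n : ℝ) * (rr s (x + y₀) : ℝ) := by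
        apply mul_le_mul_of_nonneg_left _ (Nat.cast_nonneg n)
        exact_mod_cast hc
    _ ≤ κ * (Ds s).card := hout _ hz

theorem hC5 (h1 : StC1) (h4 : StC4) : StC5 := by
  intro K T hK hT
  obtain ⟨δ, κ₄, n₀, hδ, hκ₄, h⟩ := h4 K T hK hT
  refine ⟨δ, max κ₄ (T ^ 2 * (K : ℝ) ^ 2), n₀, hδ, lt_of_lt_of_le hκ₄ (le_max_left _ _), ?_⟩
  intro n hn c D s hH
  obtain ⟨_, _, _, hout₀, _⟩ := h1 K T c n D s hK hT hH
  obtain ⟨G, hGsub, hGc, hGb⟩ := h n hn c D s hH
  have hDnn : (0 : ℝ) ≤ (Ds s).card := Nat.cast_nonneg _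
  have hout : ∀ z, z ∉ Ds s → (n : ℝ) * (rr s z : ℝ) ≤
      max κ₄ (T ^ 2 * (K : ℝ) ^ 2) * (Ds s).card := by
    intro z hz
    exact (hout₀ z hz).trans (mul_le_mul_of_nonneg_right (le_max_right _ _) hDnn)
  haveI := finSub c
  have hfin : (Lg δ s).Finite := Set.toFinite _
  have hmfin : {W | Maximal (fun W => W ∈ Lg δ s) W}.Finite := Set.toFinite _
  have hF : ∀ W, W ∈ hmfin.toFinset ↔ Maximal (fun W => W ∈ Lg δ s) W := by
    intro W
    rw [Set.Finite.mem_toFinset]
    exact Iff.rfl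
  refine ⟨hmfin.toFinset, ?_, ?_, ?_⟩
  · intro W hW
    rw [hF] at hW
    exact ⟨hW.prop.1, hW.prop.2, fun x hx => third δ _ s W hW hout x hx⟩
  · intro W hW W' hW' hne
    rw [hF] at hW hW'
    have hnle : ¬ W' ≤ W := by
      intro hle
      exact hne (le_antisymm (hW'.le_of_ge hW.prop hle) hle)
    obtain ⟨x, hxW', hxW⟩ : ∃ x, x ∈ W' ∧ x ∉ W := by
      by_contra hcon
      push Not at hcon
      exact hnle hcon
    have hc : Nat.card ↥(W ⊓ W') ≤ ((el W).filter (fun y => x + y ∈ Ds s)).card := by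
      rw [← card_el]
      apply card_le_card
      intro y hy
      rw [mem_el, Submodule.mem_inf] at hy
      rw [mem_filter, mem_el]
      exact ⟨hy.1, hW'.prop.1 _ (W'.add_mem hxW' hy.2)⟩
    calc (n : ℝ) * Nat.card ↥(W ⊓ W')
        ≤ (n : ℝ) * ((el W).filter (fun y => x + y ∈ Ds s)).card := by
          apply mul_le_mul_of_nonneg_left _ (Nat.cast_nonneg n)
          exact_mod_cast hc
      _ ≤ _ := third δ _ s W hW hout x hxW
  · have hsub : (Ds s).filter (fun x => ∀ W ∈ hmfin.toFinset, x ∉ W) ⊆ Ds s \ G := by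
      intro x hx
      rw [mem_filter] at hx
      rw [mem_sdiff]
      refine ⟨hx.1, fun hxG => ?_⟩
      obtain ⟨W, hxW, hW1, hW2⟩ := hGb x hxG
      have hWL : W ∈ Lg δ s := ⟨hW1, hW2⟩
      obtain ⟨M, hM1, hM2⟩ := hfin.exists_le_maximal hWL
      exact hx.2 M ((hF M).2 hM2) (hM1 hxW)
    calc (n : ℝ) * ((Ds s).filter (fun x => ∀ W ∈ hmfin.toFinset, x ∉ W)).card
        ≤ (n : ℝ) * ((Ds s \ G).card : ℝ) := by
          apply mul_le_mul_of_nonneg_left _ (Nat.cast_nonneg n)
          exact_mod_cast card_le_card hsub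
      _ ≤ κ₄ * (Ds s).card := hGc
      _ ≤ _ := mul_le_mul_of_nonneg_right (le_max_left _ _) hDnn

end Pool.Agent.Helper58.UP
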